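import Pool.Agent.Z702.Defs

/-!
# Z702, COB: if `χ_d T` is a coboundary then `d` comes from a rational point
-/

set_option autoImplicit false

namespace Pool.Agent.Z290.COBf

open WeierstrassCurve Pool.Agent.TH841.SH.D Pool.Agent.Z702

attribute [-instance] DivisionRing.toRatAlgebra

/-- the algebraic closure of the rational numbers -/
abbrev QQ : Type := AlgebraicClosure ℚ

lemma isAlgAC : Algebra.IsAlgebraic ℚ QQ := AlgebraicClosure.isAlgebraic ℚ

attribute [local instance] isAlgAC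

lemma isGalAC : IsGalois ℚ QQ where
  to_isSeparable := inferInstance
  to_normal := IsAlgClosure.normal ℚ QQ

attribute [local instance] isGalAC

/-- an element fixed by all the automorphisms lies in the base field -/
lemma fixm (x : QQ) (h : ∀ σ : Gal ℚ, σ x = x) : ∃ y : ℚ, algebraMap ℚ QQ y = x := by
  have := InfiniteGalois.mem_bot_iff_fixed (k := ℚ) (K := QQ) x
  rw [IntermediateField.mem_bot] at this
  exact this.2 h

lemma act_some (W : WeierstrassCurve ℚ) {F L : Type} [Field F] [Field L] [Algebra ℚ F]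
    [Algebra ℚ L] (φ : F →ₐ[ℚ] L) {x y : F} (h : (W.baseChange F).toAffine.Nonsingular x y) :
    act W φ (.some x y h) =
      .some (φ x) (φ y) ((Affine.baseChange_nonsingular W φ.injective ..).mpr h) := rfl

/-- the equation of the curve -/
lemma eqn {a b : ℤ} {x y : QQ} (h : ((WZ a b).baseChange QQ).toAffine.Nonsingular x y) :
    y ^ 2 = x ^ 3 + (a : QQ) * x ^ 2 + (b : QQ) * x := by
  have h1 := (Affine.nonsingular_iff _ _).1 h |>.1
  rw [Affine.equation_iff] at h1
  have e1 : ((WZ a b).baseChange QQ).toAffine.a₁ = 0 := map_zero _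
  have e2 : ((WZ a b).baseChange QQ).toAffine.a₂ = (a : QQ) := by
    change algebraMap ℚ QQ ((a : ℤ) : ℚ) = _
    simp
  have e3 : ((WZ a b).baseChange QQ).toAffine.a₃ = 0 := map_zero _
  have e4 : ((WZ a b).baseChange QQ).toAffine.a₄ = (b : QQ) := by
    change algebraMap ℚ QQ ((b : ℤ) : ℚ) = _
    simp
  have e6 : ((WZ a b).baseChange QQ).toAffine.a₆ = 0 := map_zero _
  rw [e1, e2, e3, e4, e6] at h1
  linear_combination h1

/-- a point of the curve -/
noncomputable def pt {a b : ℤ} {x y : QQ} (h : ((WZ a b).baseChange QQ).toAffine.Nonsingular x y) :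
    Pt (WZ a b) QQ := Affine.Point.some x y h

/-- the sum of `(x, y)` and `(0, 0)` -/
lemma add_T {a b : ℤ} (hb : b ≠ 0) {x y x' y' : QQ}
    (h : ((WZ a b).baseChange QQ).toAffine.Nonsingular x y)
    (h' : ((WZ a b).baseChange QQ).toAffine.Nonsingular x' y') (hx : x ≠ 0)
    (he : pt h' = pt h + T0 (a := a) hb QQ) :
    x' = (b : QQ) / x ∧ y' = - ((b : QQ) * y / x ^ 2) := by
  have h1 : pt h + T0 (a := a) hb QQ =
      @HAdd.hAdd _ _ _ (@instHAdd _ (@Affine.Point.instAdd QQ _ ((WZ a b).baseChange QQ).toAffine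
        (Classical.decEq QQ))) (Affine.Point.some x y h) (Affine.Point.some 0 0 (ns0 hb QQ)) := rfl
  rw [h1, @Affine.Point.add_of_X_ne _ _ _ (Classical.decEq QQ) _ _ _ _ _ _ hx] at he
  have he := (Affine.Point.some.injEq _ _ _ _ _ _).mp he
  have e0 := eqn h
  have e1 : ((WZ a b).baseChange QQ).toAffine.a₁ = 0 := map_zero _
  have e2 : ((WZ a b).baseChange QQ).toAffine.a₂ = (a : QQ) := by
    change algebraMap ℚ QQ ((a : ℤ) : ℚ) = _
    simp
  have e3 : ((WZ a b).baseChange QQ).toAffine.a₃ = 0 := map_zero _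
  obtain ⟨he1, he2⟩ := he
  rw [@Affine.slope_of_X_ne _ _ _ (Classical.decEq QQ) _ _ _ _ hx, Affine.addX, e1, e2] at he1
  rw [@Affine.slope_of_X_ne _ _ _ (Classical.decEq QQ) _ _ _ _ hx, Affine.addY, Affine.negY,
    Affine.negAddY, Affine.addX, e1, e2, e3] at he2
  constructor
  · rw [he1, sub_zero, sub_zero, sub_zero, zero_mul, add_zero]
    field_simp
    linear_combination e0
  · rw [he2, sub_zero, sub_zero]
    field_simp
    linear_combination (-x ^ 2 * y) * e0

lemma coc_pos {a b : ℤ} (h : b ≠ 0) (d : ℤ) (σ : Gal ℚ)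
    (hh : ∃ s : QQ, s ^ 2 = (d : QQ) ∧ σ s ≠ s) : coc (a := a) h d σ = T0 h QQ := by
  unfold coc
  exact if_pos hh

lemma coc_neg {a b : ℤ} (h : b ≠ 0) (d : ℤ) (σ : Gal ℚ)
    (hh : ¬ ∃ s : QQ, s ^ 2 = (d : QQ) ∧ σ s ≠ s) : coc (a := a) h d σ = 0 := by
  unfold coc
  exact if_neg hh

theorem t_COB : S_COB := by
  intro a b hb d _ hd ⟨P, hP⟩
  obtain ⟨s, hs⟩ : ∃ s : QQ, s ^ 2 = (d : QQ) := IsAlgClosed.exists_pow_nat_eq _ two_pos
  have hs0 : s ≠ 0 := by
    rintro rfl
    apply hd
    have : (d : QQ) = 0 := by rw [← hs]; ring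
    exact_mod_cast this
  have hd' : (d : QQ) ≠ 0 := by exact_mod_cast hd
  have hsσ : ∀ σ : Gal ℚ, σ s = s ∨ σ s = -s := by
    intro σ
    apply sq_eq_sq_iff_eq_or_eq_neg.1
    rw [← map_pow, hs]
    simp
  have hcoc : ∀ σ : Gal ℚ, (σ s = s → coc (a := a) hb d σ = 0) ∧
      (σ s ≠ s → coc (a := a) hb d σ = T0 hb QQ) := by
    intro σ
    constructor
    · intro h
      apply coc_neg
      rintro ⟨s', hs', hne⟩
      apply hne
      rcases sq_eq_sq_iff_eq_or_eq_neg.1 (hs'.trans hs.symm) with h1 | h1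
      · rw [h1, h]
      · rw [h1, map_neg, h]
    · intro h
      exact coc_pos _ _ _ ⟨s, hs, h⟩
  -- if all the automorphisms fix `s`
  have hsq : (∀ σ : Gal ℚ, σ s = s) → IsSquare (d : ℚ) := by
    intro h
    obtain ⟨y, hy⟩ := fixm s h
    refine ⟨y, ?_⟩
    apply (algebraMap ℚ QQ).injective
    rw [map_mul, hy, ← pow_two, hs]
    simp
  have hT0 : T0 (a := a) hb QQ ≠ 0 := by
    intro h
    exact Affine.Point.some_ne_zero _ h
  have hfix0 : (∀ σ : Gal ℚ, act (WZ a b) σ.toAlgHom P = P) → IsSquare (d : ℚ) := by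
    intro h
    apply hsq
    intro σ
    by_contra hne
    have h1 := hP σ
    rw [(hcoc σ).2 hne, h σ, sub_self] at h1
    exact hT0 h1
  have hact0 : ∀ σ : Gal ℚ, σ s = s → act (WZ a b) σ.toAlgHom P = P := by
    intro σ h
    have h1 := hP σ
    rw [(hcoc σ).1 h] at h1
    exact (sub_eq_zero.1 h1.symm)
  have hact1 : ∀ σ : Gal ℚ, σ s ≠ s → act (WZ a b) σ.toAlgHom P = P + T0 hb QQ := by
    intro σ h
    have h1 := hP σ
    rw [(hcoc σ).2 h] at h1
    rw [h1]
    abel
  rcases P with _ | ⟨x, y, hxy⟩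
  · left
    apply hfix0
    intro σ
    exact map_zero _
  by_cases hx : x = 0
  · left
    apply hfix0
    intro σ
    subst hx
    have e0 := eqn hxy
    have hy : y = 0 := by
      have : y ^ 2 = 0 := by rw [e0]; ring
      exact pow_eq_zero_iff two_ne_zero |>.1 this
    subst hy
    rw [act_some]
    congr 1
    · exact map_zero σ
    · exact map_zero σ
  have e0 := eqn hxy
  have hc : (b : QQ) ≠ 0 := by exact_mod_cast hb
  have f0 : ∀ σ : Gal ℚ, σ s = s → σ x = x ∧ σ y = y := by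
    intro σ h
    have h1 := hact0 σ h
    rw [act_some] at h1
    exact (Affine.Point.some.injEq _ _ _ _ _ _).mp h1
  have f1 : ∀ σ : Gal ℚ, σ s ≠ s → σ x = (b : QQ) / x ∧
      σ y = - ((b : QQ) * y / x ^ 2) := by
    intro σ h
    have h1 := hact1 σ h
    rw [act_some] at h1
    exact add_T hb _ _ hx h1
  right
  by_cases hy : y = 0
  · left
    subst hy
    have e1 : x ^ 2 + (a : QQ) * x + (b : QQ) = 0 := by
      have h1 : x * (x ^ 2 + (a : QQ) * x + (b : QQ)) = 0 := by
        linear_combination -e0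
      exact (mul_eq_zero.1 h1).resolve_left hx
    obtain ⟨r, hr⟩ : ∃ r : ℚ, algebraMap ℚ QQ r = (2 * x + a) * s := by
      apply fixm
      intro σ
      have e4 : σ (2 : QQ) = 2 := map_ofNat σ 2
      have e5 : σ (a : QQ) = a := map_intCast σ a
      by_cases h : σ s = s
      · rw [map_mul, map_add, map_mul, (f0 σ h).1, h, e4, e5]
      · rw [map_mul, map_add, map_mul, (f1 σ h).1, (hsσ σ).resolve_left h, e4, e5]
        have e2 : (b : QQ) / x = - (x + (a : QQ)) := by
          rw [div_eq_iff hx]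
          linear_combination e1
        rw [e2]
        ring
    refine ⟨r, ?_⟩
    apply (algebraMap ℚ QQ).injective
    have e3 : ((2 * x + a) * s) ^ 2 = (d : QQ) * ((a : QQ) ^ 2 - 4 * b) := by
      rw [mul_pow, hs]
      linear_combination (4 * (d : QQ)) * e1
    rw [map_mul, map_mul, map_sub, map_pow, map_mul, hr]
    simp only [map_intCast, map_ofNat]
    linear_combination -e3
  · right
    obtain ⟨r, hr⟩ : ∃ r : ℚ, algebraMap ℚ QQ r = (y / x) * s := by
      apply fixm
      intro σ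
      by_cases h : σ s = s
      · rw [map_mul, map_div₀, (f0 σ h).1, (f0 σ h).2, h]
      · rw [map_mul, map_div₀, (f1 σ h).1, (f1 σ h).2, (hsσ σ).resolve_left h]
        field_simp
    obtain ⟨Y, hY⟩ : ∃ Y : ℚ, algebraMap ℚ QQ Y = y * ((b : QQ) - x ^ 2) / x ^ 2 := by
      apply fixm
      intro σ
      have e5 : σ (b : QQ) = b := map_intCast σ b
      by_cases h : σ s = s
      · simp only [map_div₀, map_mul, map_sub, map_pow, (f0 σ h).1, (f0 σ h).2, e5]
      · simp only [map_div₀, map_mul, map_sub, map_pow, (f1 σ h).1, (f1 σ h).2, e5]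
        field_simp
        ring
    have hr0 : r ≠ 0 := by
      rintro rfl
      rw [map_zero] at hr
      exact mul_ne_zero (div_ne_zero hy hx) hs0 hr.symm
    have hdq : (d : ℚ) ≠ 0 := by exact_mod_cast hd
    have hX : algebraMap ℚ QQ ((d : ℚ) * (r / d) ^ 2) = y ^ 2 / x ^ 2 := by
      rw [map_mul, map_pow, map_div₀, hr]
      simp only [map_intCast]
      field_simp
      linear_combination hs
    obtain ⟨X, hXd⟩ : ∃ X : ℚ, X = (d : ℚ) * (r / d) ^ 2 := ⟨_, rfl⟩
    rw [← hXd] at hX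
    refine ⟨X, Y, r / d, ?_, ?_, hXd⟩
    · rw [hXd]
      exact mul_ne_zero hdq (pow_ne_zero 2 (div_ne_zero hr0 hdq))
    · apply (algebraMap ℚ QQ).injective
      simp only [map_add, map_sub, map_mul, map_pow, hY, hX, map_intCast, map_ofNat]
      have hy2 : y ^ 2 / x ^ 2 = x + a + b / x := by
        rw [e0]
        field_simp
      have hy3 : (y * ((b : QQ) - x ^ 2) / x ^ 2) ^ 2 =
          y ^ 2 / x ^ 2 * (((b : QQ) - x ^ 2) / x) ^ 2 := by
        field_simp
      rw [hy3, hy2]
      field_simp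
      ring

end Pool.Agent.Z290.COBf
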